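import Pool.Agent.H47.B1.H91.GoldMertens2
import Pool.Agent.H47.B1.H91.PK.Defs

/-!
PK Msq: mean squares of the type II coefficients.

* `sum_moebius_coprime`: for y ≥ 1, g ≥ 1: |∑_{e ≤ y, (e,g)=1} μ(e)/e| ≤ 1.
  Proof: y ∑ μ(e)/e = ∑ μ(e) floor(y/e) + ∑ μ(e) frac(y/e), and ∑_{e ≤ y,(e,g)=1} μ(e) floor(y/e)
   = ∑_{n ≤ y} ∑_{e | n, (e,g)=1} μ(e) = κ := #{n ≤ y : every prime factor of n divides g} ≥ 1 (n = 1).
  The fractional parts are in [0,1) and 0 for e = 1; the e > 1 coprime to g are not counted in κ, so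
   κ + #{2 ≤ e ≤ y, (e,g)=1} ≤ y, hence |y ∑ μ(e)/e| ≤ y.
* `cV_sq_large`: for n ≥ 2, cV V n = - ∑_{d | n, d ≤ V} μ(d).  ∑_{n ≤ Y} (∑_{d|n,d≤V} μ(d))²
   = ∑_{d1,d2 ≤ V} μ(d1)μ(d2) floor(Y/[d1,d2]) ≤ Y ∑ μ(d1)μ(d2)/[d1,d2] + V², and
   ∑_{d1,d2≤V} μμ/[d1,d2] = ∑_{g ≤ V} φ(g) (∑_{d ≤ V, g | d} μ(d)/d)²   ((d1,d2) = ∑_{g | d1, g | d2} φ(g)), and for
   squarefree g, ∑_{d≤V, g|d} μ(d)/d = (μ(g)/g) ∑_{e ≤ V/g, (e,g)=1} μ(e)/e (0 if g is not squarefree), so the sum is
   ≤ ∑_{g≤V} φ(g)/g² ≤ ∑_{g ≤ V} 1/g ≤ log V + 1.   With V² ≤ Y: total ≤ Y (log V + 2).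
* `cV_sq_all`: |cV V n| ≤ τ(n), and ∑_{n≤Y} τ(n)² ≤ Y (log Y + 1)³:
   ∑_{n≤Y} τ(n)² = ∑_{n} ∑_{d m = n} τ(dm) ≤ ∑_{d≤Y} τ(d) ∑_{m ≤ Y/d} τ(m) ≤ ∑_d τ(d) (Y/d)(1+log Y)
   ≤ Y (1+log Y) (∑_{a≤Y} 1/a)².
* `Lam_sq`: ∑_{M<m≤2M} Λ(m)² ≤ log(2M) ψ(2M) ≤ log(2M) (log 3) 2M  (`Pool.Agent.H91.Gold.psi_le_log_three`),
   log 3 ≤ 1.0987 (`Pool.Agent.H91.Gold.log_three_bounds`).
-/

set_option autoImplicit false

namespace Pool.Agent.H91.PK

open Finset ArithmeticFunction

theorem Msq_sum_moebius (n : ℕ) :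
    ∑ d ∈ n.divisors, (moebius d : ℤ) = if n = 1 then 1 else 0 := by
  rw [← coe_mul_zeta_apply, moebius_mul_coe_zeta, one_apply]

theorem Msq_moebius_prime_mul {p e : ℕ} (hp : p.Prime) (he : ¬ p ∣ e) :
    moebius (p * e) = - moebius e := by
  rw [isMultiplicative_moebius.map_mul_of_coprime ((Nat.Prime.coprime_iff_not_dvd hp).2 he),
    moebius_apply_prime hp]
  ring

theorem Msq_moebius_sq_dvd {p e : ℕ} (hp : p.Prime) (he : p ^ 2 ∣ e) : moebius e = 0 := by
  apply moebius_eq_zero_of_not_squarefree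
  intro h
  rw [pow_two] at he
  have := h p he
  exact hp.one_lt.ne' (Nat.isUnit_iff.1 this)

/-- if some prime factor of `n` does not divide `g` the coprime part of the sum vanishes -/
theorem Msq_s_zero {n g p : ℕ} (hn : n ≠ 0) (hp : p.Prime) (hpn : p ∣ n) (hpg : ¬ p ∣ g) :
    ∑ e ∈ n.divisors.filter (fun e => Nat.Coprime e g), (moebius e : ℤ) = 0 := by
  classical
  have hcp : Nat.Coprime p g := (Nat.Prime.coprime_iff_not_dvd hp).2 hpg
  refine Finset.sum_involution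
    (fun e _ => if p ∣ e then (if p ^ 2 ∣ e then e else e / p) else p * e) ?_ ?_ ?_ ?_
  · intro e _
    by_cases h1 : p ∣ e
    · by_cases h2 : p ^ 2 ∣ e
      · simp [h1, h2, Msq_moebius_sq_dvd hp h2]
      · simp only [h1, h2, if_true, if_false]
        obtain ⟨f, rfl⟩ := h1
        have hf : ¬ p ∣ f := by
          intro h
          apply h2
          rw [pow_two]
          exact Nat.mul_dvd_mul_left p h
        rw [Nat.mul_div_cancel_left f hp.pos, Msq_moebius_prime_mul hp hf]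
        ring
    · simp only [h1, if_false]
      rw [Msq_moebius_prime_mul hp h1]
      ring
  · intro e he hne
    have he0 : 0 < e := Nat.pos_of_mem_divisors (mem_filter.1 he).1
    by_cases h1 : p ∣ e
    · by_cases h2 : p ^ 2 ∣ e
      · exact absurd (Msq_moebius_sq_dvd hp h2) hne
      · simp only [h1, h2, if_true, if_false]
        exact (Nat.div_lt_self he0 hp.one_lt).ne
    · simp only [h1, if_false]
      have := hp.one_lt
      intro h
      have : 1 * e < p * e := Nat.mul_lt_mul_of_pos_right this he0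
      omega
  · intro e he
    rw [mem_filter, Nat.mem_divisors] at he ⊢
    obtain ⟨⟨hen, _⟩, hc⟩ := he
    by_cases h1 : p ∣ e
    · by_cases h2 : p ^ 2 ∣ e
      · simp only [h1, h2, if_true]
        exact ⟨⟨hen, hn⟩, hc⟩
      · simp only [h1, h2, if_true, if_false]
        exact ⟨⟨(Nat.div_dvd_of_dvd h1).trans hen, hn⟩,
          Nat.Coprime.coprime_dvd_left (Nat.div_dvd_of_dvd h1) hc⟩
    · simp only [h1, if_false]
      refine ⟨⟨?_, hn⟩, Nat.Coprime.mul_left hcp hc⟩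
      exact Nat.Coprime.mul_dvd_of_dvd_of_dvd ((Nat.Prime.coprime_iff_not_dvd hp).2 h1) hpn hen
  · intro e he
    by_cases h1 : p ∣ e
    · by_cases h2 : p ^ 2 ∣ e
      · simp [h1, h2]
      · simp only [h1, h2, if_true, if_false]
        obtain ⟨f, rfl⟩ := h1
        have hf : ¬ p ∣ f := by
          intro h
          apply h2
          rw [pow_two]
          exact Nat.mul_dvd_mul_left p h
        simp [Nat.mul_div_cancel_left f hp.pos, hf]
    · simp only [h1, if_false]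
      have h3 : ¬ p ^ 2 ∣ p * e := by
        intro h
        apply h1
        rw [pow_two] at h
        exact (Nat.mul_dvd_mul_iff_left hp.pos).1 h
      simp [h3, Nat.mul_div_cancel_left e hp.pos]

theorem Msq_s_one {n g : ℕ} (hn : n ≠ 0) (h : ∀ p, p.Prime → p ∣ n → p ∣ g) :
    ∑ e ∈ n.divisors.filter (fun e => Nat.Coprime e g), (moebius e : ℤ) = 1 := by
  have : n.divisors.filter (fun e => Nat.Coprime e g) = {1} := by
    ext e
    rw [mem_filter, Nat.mem_divisors, mem_singleton]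
    constructor
    · rintro ⟨⟨hen, -⟩, hc⟩
      by_contra he
      obtain ⟨p, hp, hpe⟩ := Nat.exists_prime_and_dvd he
      exact Nat.not_coprime_of_dvd_of_dvd hp.one_lt hpe (h p hp (hpe.trans hen)) hc
    · rintro rfl
      exact ⟨⟨one_dvd _, hn⟩, Nat.coprime_one_left g⟩
  rw [this, sum_singleton]
  simp

/-- the local inequality used in `sum_moebius_coprime` -/
theorem Msq_s_bound {n g : ℕ} (hn : n ≠ 0) :
    0 ≤ ∑ e ∈ n.divisors.filter (fun e => Nat.Coprime e g), (moebius e : ℤ) ∧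
    ∑ e ∈ n.divisors.filter (fun e => Nat.Coprime e g), (moebius e : ℤ) +
      (if n ≠ 1 ∧ Nat.Coprime n g then 1 else 0) ≤ 1 := by
  by_cases h : ∀ p, p.Prime → p ∣ n → p ∣ g
  · rw [Msq_s_one hn h]
    refine ⟨by norm_num, ?_⟩
    rw [if_neg]
    · norm_num
    · rintro ⟨h1, h2⟩
      obtain ⟨p, hp, hpe⟩ := Nat.exists_prime_and_dvd h1
      exact Nat.not_coprime_of_dvd_of_dvd hp.one_lt hpe (h p hp hpe) h2
  · push Not at h
    obtain ⟨p, hp, hpn, hpg⟩ := h
    rw [Msq_s_zero hn hp hpn hpg]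
    refine ⟨le_rfl, ?_⟩
    split_ifs <;> norm_num

theorem Msq_Icc_dvd_card (n d : ℕ) : ((Icc 1 n).filter (fun x => d ∣ x)).card = n / d := by
  rw [← Nat.Ioc_filter_dvd_card_eq_div]
  congr 1

theorem Msq_abs_moebius (e : ℕ) : |(moebius e : ℝ)| ≤ 1 := by
  have := @abs_moebius_le_one e
  have h2 : ((|moebius e| : ℤ) : ℝ) ≤ ((1 : ℤ) : ℝ) := by exact_mod_cast this
  simpa using h2

theorem sum_moebius_coprime (g y : ℕ) (hg : 1 ≤ g) (hy : 1 ≤ y) :
    |∑ e ∈ (Icc 1 y).filter (fun e => Nat.Coprime e g), (ArithmeticFunction.moebius e : ℝ) / e| ≤ 1 := by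
  classical
  set F := (Icc 1 y).filter (fun e => Nat.Coprime e g) with hF
  have hy0 : (0 : ℝ) < y := by exact_mod_cast hy
  -- kappa
  have hk : ∑ e ∈ F, (moebius e : ℤ) * ((y / e : ℕ) : ℤ) =
      ∑ n ∈ Icc 1 y, ∑ e ∈ n.divisors.filter (fun e => Nat.Coprime e g), (moebius e : ℤ) := by
    have h1 : ∀ e ∈ F, (moebius e : ℤ) * ((y / e : ℕ) : ℤ) =
        ∑ n ∈ (Icc 1 y).filter (fun n => e ∣ n), (moebius e : ℤ) := by
      intro e _
      rw [sum_const, Msq_Icc_dvd_card]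
      simp [mul_comm]
    rw [sum_congr rfl h1]
    refine Finset.sum_comm' ?_
    intro e n
    simp only [hF, mem_filter, mem_Icc, Nat.mem_divisors]
    constructor
    · rintro ⟨⟨⟨h1, h2⟩, h3⟩, ⟨h4, h5⟩, h6⟩
      exact ⟨⟨⟨h6, by omega⟩, h3⟩, h4, h5⟩
    · rintro ⟨⟨⟨h1, h2⟩, h3⟩, h4, h5⟩
      exact ⟨⟨⟨Nat.pos_of_dvd_of_pos h1 (by omega), (Nat.le_of_dvd (by omega) h1).trans h5⟩, h3⟩,
        ⟨h4, h5⟩, h1⟩
  set κ : ℤ := ∑ n ∈ Icc 1 y, ∑ e ∈ n.divisors.filter (fun e => Nat.Coprime e g), (moebius e : ℤ)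
    with hκ
  set C : ℤ := ∑ e ∈ F, (if e ≠ 1 then 1 else 0) with hC
  have hκ0 : 0 ≤ κ := by
    apply sum_nonneg
    intro n hn
    have : n ≠ 0 := by
      rw [mem_Icc] at hn
      omega
    exact (Msq_s_bound this).1
  have hκC : κ + C ≤ y := by
    have e1 : C = ∑ n ∈ Icc 1 y, (if n ≠ 1 ∧ Nat.Coprime n g then 1 else 0) := by
      rw [hC, hF, sum_filter]
      apply sum_congr rfl
      intro n _
      by_cases h1 : Nat.Coprime n g <;> by_cases h2 : n = 1 <;> simp [h1, h2]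
    rw [e1, hκ, ← sum_add_distrib]
    calc ∑ n ∈ Icc 1 y, (∑ e ∈ n.divisors.filter (fun e => Nat.Coprime e g), (moebius e : ℤ) +
          (if n ≠ 1 ∧ Nat.Coprime n g then 1 else 0)) ≤ ∑ n ∈ Icc 1 y, (1 : ℤ) := by
          apply sum_le_sum
          intro n hn
          have : n ≠ 0 := by
            rw [mem_Icc] at hn
            omega
          exact (Msq_s_bound this).2
      _ = y := by simp
  have hkR : ∑ e ∈ F, (moebius e : ℝ) * ((y / e : ℕ) : ℝ) = κ := by
    rw [← hk]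
    push_cast
    rfl
  have hsplit : (y : ℝ) * ∑ e ∈ F, (moebius e : ℝ) / e =
      ∑ e ∈ F, (moebius e : ℝ) * ((y / e : ℕ) : ℝ) +
      ∑ e ∈ F, (moebius e : ℝ) * ((y : ℝ) / e - ((y / e : ℕ) : ℝ)) := by
    rw [mul_sum, ← sum_add_distrib]
    apply sum_congr rfl
    intro e _
    ring
  have hT : |∑ e ∈ F, (moebius e : ℝ) * ((y : ℝ) / e - ((y / e : ℕ) : ℝ))| ≤ C := by
    rw [hC]
    push_cast
    refine (abs_sum_le_sum_abs _ _).trans (sum_le_sum ?_)
    intro e he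
    rw [hF, mem_filter, mem_Icc] at he
    have he0 : (0 : ℝ) < e := by exact_mod_cast he.1.1
    by_cases h1 : e = 1
    · subst h1
      simp
    · rw [if_pos h1, abs_mul]
      have h2 : ((y / e : ℕ) : ℝ) ≤ (y : ℝ) / e := Nat.cast_div_le
      have h3 : (y : ℝ) / e < ((y / e : ℕ) : ℝ) + 1 := by
        rw [div_lt_iff₀ he0]
        have := Nat.lt_div_mul_add (a := y) (b := e) (by omega)
        have h4 : y < (y / e + 1) * e := by
          rw [add_mul, one_mul]
          exact this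
        exact_mod_cast h4
      have h5 : |(y : ℝ) / e - ((y / e : ℕ) : ℝ)| ≤ 1 := by
        rw [abs_le]
        constructor <;> linarith
      calc |(moebius e : ℝ)| * |(y : ℝ) / e - ((y / e : ℕ) : ℝ)| ≤ 1 * 1 :=
            mul_le_mul (Msq_abs_moebius e) h5 (abs_nonneg _) zero_le_one
        _ = 1 := by norm_num
  have hfin : |(y : ℝ) * ∑ e ∈ F, (moebius e : ℝ) / e| ≤ y := by
    rw [hsplit, hkR]
    have h1 : (κ : ℝ) + C ≤ y := by exact_mod_cast hκC
    have h2 : (0 : ℝ) ≤ κ := by exact_mod_cast hκ0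
    calc |(κ : ℝ) + ∑ e ∈ F, (moebius e : ℝ) * ((y : ℝ) / e - ((y / e : ℕ) : ℝ))|
        ≤ |(κ : ℝ)| + |∑ e ∈ F, (moebius e : ℝ) * ((y : ℝ) / e - ((y / e : ℕ) : ℝ))| :=
          abs_add_le _ _
      _ ≤ κ + C := by
          rw [abs_of_nonneg h2]
          linarith
      _ ≤ y := h1
  rw [abs_mul, abs_of_pos hy0] at hfin
  have : (y : ℝ) * |∑ e ∈ F, (moebius e : ℝ) / e| ≤ y * 1 := by linarith
  exact le_of_mul_le_mul_left this hy0

theorem Msq_harmonic (n : ℕ) : ∑ g ∈ Icc 1 n, (1 : ℝ) / g ≤ 1 + Real.log n := by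
  have h := harmonic_le_one_add_log n
  rw [harmonic_eq_sum_Icc] at h
  push_cast at h
  simpa [one_div] using h

theorem Msq_cV_eq {V n : ℕ} (hn : 2 ≤ n) :
    cV V n = - ∑ d ∈ (Icc 1 V).filter (fun d => d ∣ n), (moebius d : ℝ) := by
  have h1 : ∑ d ∈ n.divisors, (moebius d : ℝ) = 0 := by
    have h := Msq_sum_moebius n
    rw [if_neg (by omega)] at h
    have h2 : ((∑ d ∈ n.divisors, (moebius d : ℤ) : ℤ) : ℝ) = 0 := by rw [h]; simp
    rw [← h2]
    push_cast
    rfl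
  have h2 := sum_filter_add_sum_filter_not n.divisors (fun d => V < d) (fun d => (moebius d : ℝ))
  have h3 : n.divisors.filter (fun d => ¬ V < d) = (Icc 1 V).filter (fun d => d ∣ n) := by
    ext d
    simp only [mem_filter, Nat.mem_divisors, mem_Icc, not_lt]
    constructor
    · rintro ⟨⟨h4, h5⟩, h6⟩
      exact ⟨⟨Nat.pos_of_dvd_of_pos h4 (by omega), h6⟩, h4⟩
    · rintro ⟨⟨h4, h5⟩, h6⟩
      exact ⟨⟨h6, by omega⟩, h5⟩
  rw [h3, h1] at h2
  unfold cV
  linarith

theorem Msq_moebius_mul (g e : ℕ) :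
    (moebius (g * e) : ℝ) = if Nat.Coprime e g then (moebius g : ℝ) * moebius e else 0 := by
  split_ifs with h
  · rw [isMultiplicative_moebius.map_mul_of_coprime h.symm]
    push_cast
    rfl
  · have : ¬ Squarefree (g * e) := fun hs => h (Nat.squarefree_mul_iff.1 hs).1.symm
    rw [moebius_eq_zero_of_not_squarefree this]
    simp

theorem Msq_inner {V g : ℕ} (hg : 1 ≤ g) (hgV : g ≤ V) :
    |∑ d ∈ (Icc 1 V).filter (fun d => g ∣ d), (moebius d : ℝ) / d| ≤ 1 / g := by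
  have hg0 : (0 : ℝ) < g := by exact_mod_cast hg
  have h1 : ∑ d ∈ (Icc 1 V).filter (fun d => g ∣ d), (moebius d : ℝ) / d =
      ∑ e ∈ Icc 1 (V / g), (moebius (g * e) : ℝ) / ((g * e : ℕ) : ℝ) := by
    symm
    refine Finset.sum_nbij' (fun e => g * e) (fun d => d / g) ?_ ?_ ?_ ?_ ?_
    · intro e he
      rw [mem_Icc] at he
      rw [mem_filter, mem_Icc]
      refine ⟨⟨Nat.mul_pos hg he.1, ?_⟩, dvd_mul_right _ _⟩
      calc g * e ≤ g * (V / g) := Nat.mul_le_mul_left _ he.2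
        _ ≤ V := Nat.mul_div_le _ _
    · intro d hd
      rw [mem_filter, mem_Icc] at hd
      rw [mem_Icc]
      exact ⟨Nat.div_pos (Nat.le_of_dvd hd.1.1 hd.2) hg, Nat.div_le_div_right hd.1.2⟩
    · intro e _
      exact Nat.mul_div_cancel_left e hg
    · intro d hd
      rw [mem_filter] at hd
      exact Nat.mul_div_cancel' hd.2
    · intro e _
      rfl
  have h2 : ∑ e ∈ Icc 1 (V / g), (moebius (g * e) : ℝ) / ((g * e : ℕ) : ℝ) =
      ((moebius g : ℝ) / g) * ∑ e ∈ (Icc 1 (V / g)).filter (fun e => Nat.Coprime e g),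
        (moebius e : ℝ) / e := by
    rw [mul_sum, sum_filter]
    apply sum_congr rfl
    intro e _
    rw [Msq_moebius_mul]
    split_ifs
    · push_cast
      rw [div_mul_div_comm]
    · simp
  rw [h1, h2, abs_mul, abs_div, abs_of_pos hg0]
  have h3 := sum_moebius_coprime g (V / g) hg (Nat.div_pos hgV hg)
  have h4 := Msq_abs_moebius g
  calc |(moebius g : ℝ)| / g * |∑ e ∈ (Icc 1 (V / g)).filter (fun e => Nat.Coprime e g),
        (moebius e : ℝ) / e| ≤ 1 / g * 1 := by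
        apply mul_le_mul _ h3 (abs_nonneg _) (by positivity)
        exact div_le_div_of_nonneg_right h4 hg0.le
    _ = 1 / g := by ring

theorem Msq_quad (V : ℕ) (hV : 1 ≤ V) :
    ∑ a ∈ Icc 1 V, ∑ b ∈ Icc 1 V, (moebius a : ℝ) * moebius b / (Nat.lcm a b : ℝ) ≤
      1 + Real.log V := by
  have h1 : ∀ a ∈ Icc 1 V, ∀ b ∈ Icc 1 V, (moebius a : ℝ) * moebius b / (Nat.lcm a b : ℝ) =
      ∑ g ∈ Icc 1 V, (Nat.totient g : ℝ) * ((if g ∣ a then (moebius a : ℝ) / a else 0) *
        (if g ∣ b then (moebius b : ℝ) / b else 0)) := by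
    intro a ha b hb
    rw [mem_Icc] at ha hb
    have ha0 : (0 : ℝ) < a := by exact_mod_cast ha.1
    have hb0 : (0 : ℝ) < b := by exact_mod_cast hb.1
    have hgcd : ((Nat.gcd a b : ℕ) : ℝ) = ∑ g ∈ (Icc 1 V).filter (fun g => g ∣ a ∧ g ∣ b),
        (Nat.totient g : ℝ) := by
      have h := Nat.sum_totient (Nat.gcd a b)
      have h2 : (Nat.gcd a b).divisors = (Icc 1 V).filter (fun g => g ∣ a ∧ g ∣ b) := by
        ext g
        simp only [mem_filter, Nat.mem_divisors, mem_Icc, Nat.dvd_gcd_iff]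
        constructor
        · rintro ⟨⟨h3, h4⟩, -⟩
          exact ⟨⟨Nat.pos_of_dvd_of_pos h3 ha.1, (Nat.le_of_dvd ha.1 h3).trans ha.2⟩, h3, h4⟩
        · rintro ⟨-, h3, h4⟩
          exact ⟨⟨h3, h4⟩, (Nat.gcd_pos_of_pos_left b ha.1).ne'⟩
      rw [← h2]
      exact_mod_cast h.symm
    have hl0 : (0 : ℝ) < (Nat.lcm a b : ℝ) := by exact_mod_cast Nat.lcm_pos ha.1 hb.1
    have hgl : ((Nat.gcd a b : ℕ) : ℝ) * (Nat.lcm a b : ℝ) = a * b := by
      exact_mod_cast Nat.gcd_mul_lcm a b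
    have h3 : (moebius a : ℝ) * moebius b / (Nat.lcm a b : ℝ) =
        ((Nat.gcd a b : ℕ) : ℝ) * ((moebius a : ℝ) / a * ((moebius b : ℝ) / b)) := by
      rw [div_eq_iff hl0.ne']
      have h4 : ((Nat.gcd a b : ℕ) : ℝ) * ((moebius a : ℝ) / a * ((moebius b : ℝ) / b)) *
          (Nat.lcm a b : ℝ) = (((Nat.gcd a b : ℕ) : ℝ) * (Nat.lcm a b : ℝ)) *
            ((moebius a : ℝ) / a * ((moebius b : ℝ) / b)) := by ring
      rw [h4, hgl]
      field_simp
    rw [h3, hgcd, sum_mul, sum_filter]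
    apply sum_congr rfl
    intro g _
    by_cases h4 : g ∣ a <;> by_cases h5 : g ∣ b <;> simp [h4, h5]
  rw [sum_congr rfl (fun a ha => sum_congr rfl (h1 a ha))]
  have h2 : ∑ a ∈ Icc 1 V, ∑ b ∈ Icc 1 V, ∑ g ∈ Icc 1 V, (Nat.totient g : ℝ) *
      ((if g ∣ a then (moebius a : ℝ) / a else 0) * (if g ∣ b then (moebius b : ℝ) / b else 0)) =
      ∑ g ∈ Icc 1 V, (Nat.totient g : ℝ) *
        (∑ d ∈ (Icc 1 V).filter (fun d => g ∣ d), (moebius d : ℝ) / d) ^ 2 := by
    rw [sum_congr rfl (fun a _ => sum_comm), sum_comm]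
    apply sum_congr rfl
    intro g _
    rw [sum_filter, pow_two, sum_mul_sum, mul_sum]
    apply sum_congr rfl
    intro a _
    rw [mul_sum]
  rw [h2]
  calc ∑ g ∈ Icc 1 V, (Nat.totient g : ℝ) *
        (∑ d ∈ (Icc 1 V).filter (fun d => g ∣ d), (moebius d : ℝ) / d) ^ 2
      ≤ ∑ g ∈ Icc 1 V, (1 : ℝ) / g := by
        apply sum_le_sum
        intro g hg
        rw [mem_Icc] at hg
        have hg0 : (0 : ℝ) < g := by exact_mod_cast hg.1
        have h3 := Msq_inner hg.1 hg.2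
        have h4 : (∑ d ∈ (Icc 1 V).filter (fun d => g ∣ d), (moebius d : ℝ) / d) ^ 2 ≤
            (1 / (g : ℝ)) ^ 2 := by
          rw [← sq_abs]
          exact pow_le_pow_left₀ (abs_nonneg _) h3 2
        have h5 : (Nat.totient g : ℝ) ≤ g := by exact_mod_cast Nat.totient_le g
        calc (Nat.totient g : ℝ) *
            (∑ d ∈ (Icc 1 V).filter (fun d => g ∣ d), (moebius d : ℝ) / d) ^ 2
            ≤ g * (1 / (g : ℝ)) ^ 2 := mul_le_mul h5 h4 (sq_nonneg _) hg0.le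
          _ = 1 / g := by field_simp
    _ ≤ 1 + Real.log V := Msq_harmonic V

theorem cV_sq_large (V Y : ℕ) (hV : 1 ≤ V) (hY : V ^ 2 ≤ Y) :
    ∑ n ∈ Ioc V Y, (cV V n) ^ 2 ≤ Y * (Real.log V + 2) := by
  have hY0 : (0 : ℝ) ≤ Y := Nat.cast_nonneg _
  calc ∑ n ∈ Ioc V Y, (cV V n) ^ 2
      = ∑ n ∈ Ioc V Y, (∑ d ∈ (Icc 1 V).filter (fun d => d ∣ n), (moebius d : ℝ)) ^ 2 := by
        apply sum_congr rfl
        intro n hn
        rw [mem_Ioc] at hn
        rw [Msq_cV_eq (by omega), neg_sq]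
    _ ≤ ∑ n ∈ Icc 1 Y, (∑ d ∈ (Icc 1 V).filter (fun d => d ∣ n), (moebius d : ℝ)) ^ 2 := by
        apply sum_le_sum_of_subset_of_nonneg
        · intro n hn
          rw [mem_Ioc] at hn
          rw [mem_Icc]
          omega
        · intro n _ _
          positivity
    _ = ∑ a ∈ Icc 1 V, ∑ b ∈ Icc 1 V, (moebius a : ℝ) * moebius b * ((Y / Nat.lcm a b : ℕ) : ℝ) := by
        have h1 : ∀ n ∈ Icc 1 Y, (∑ d ∈ (Icc 1 V).filter (fun d => d ∣ n), (moebius d : ℝ)) ^ 2 =
            ∑ a ∈ Icc 1 V, ∑ b ∈ Icc 1 V, (if Nat.lcm a b ∣ n then (moebius a : ℝ) * moebius b else 0) := by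
          intro n _
          rw [sum_filter, pow_two, sum_mul_sum]
          apply sum_congr rfl
          intro a _
          apply sum_congr rfl
          intro b _
          by_cases h2 : a ∣ n <;> by_cases h3 : b ∣ n <;> simp [h2, h3, Nat.lcm_dvd_iff]
        rw [sum_congr rfl h1, sum_comm]
        apply sum_congr rfl
        intro a _
        rw [sum_comm]
        apply sum_congr rfl
        intro b _
        rw [← sum_filter, sum_const, Msq_Icc_dvd_card, nsmul_eq_mul, mul_comm]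
    _ ≤ ∑ a ∈ Icc 1 V, ∑ b ∈ Icc 1 V,
          (Y * ((moebius a : ℝ) * moebius b / (Nat.lcm a b : ℝ)) + 1) := by
        apply sum_le_sum
        intro a ha
        apply sum_le_sum
        intro b hb
        rw [mem_Icc] at ha hb
        have hl : 0 < Nat.lcm a b := Nat.lcm_pos ha.1 hb.1
        have hl0 : (0 : ℝ) < (Nat.lcm a b : ℝ) := by exact_mod_cast hl
        have h2 : ((Y / Nat.lcm a b : ℕ) : ℝ) ≤ (Y : ℝ) / Nat.lcm a b := Nat.cast_div_le
        have h3 : (Y : ℝ) / Nat.lcm a b < ((Y / Nat.lcm a b : ℕ) : ℝ) + 1 := by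
          rw [div_lt_iff₀ hl0]
          have := Nat.lt_div_mul_add (a := Y) (b := Nat.lcm a b) hl
          have h4 : Y < (Y / Nat.lcm a b + 1) * Nat.lcm a b := by
            rw [add_mul, one_mul]
            exact this
          exact_mod_cast h4
        have h5 : |(moebius a : ℝ) * moebius b| ≤ 1 := by
          rw [abs_mul]
          calc |(moebius a : ℝ)| * |(moebius b : ℝ)| ≤ 1 * 1 :=
                mul_le_mul (Msq_abs_moebius a) (Msq_abs_moebius b) (abs_nonneg _) zero_le_one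
            _ = 1 := by norm_num
        have h6 : |(moebius a : ℝ) * moebius b * (((Y / Nat.lcm a b : ℕ) : ℝ) - (Y : ℝ) / Nat.lcm a b)| ≤ 1 := by
          rw [abs_mul]
          have h7 : |((Y / Nat.lcm a b : ℕ) : ℝ) - (Y : ℝ) / Nat.lcm a b| ≤ 1 := by
            rw [abs_le]
            constructor <;> linarith
          calc |(moebius a : ℝ) * moebius b| * |((Y / Nat.lcm a b : ℕ) : ℝ) - (Y : ℝ) / Nat.lcm a b|
              ≤ 1 * 1 := mul_le_mul h5 h7 (abs_nonneg _) zero_le_one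
            _ = 1 := by norm_num
        have h8 := (abs_le.1 h6).2
        have h9 : (Y : ℝ) * ((moebius a : ℝ) * moebius b / (Nat.lcm a b : ℝ)) =
            (moebius a : ℝ) * moebius b * ((Y : ℝ) / Nat.lcm a b) := by ring
        rw [h9]
        linarith
    _ = Y * ∑ a ∈ Icc 1 V, ∑ b ∈ Icc 1 V, (moebius a : ℝ) * moebius b / (Nat.lcm a b : ℝ) +
          (V : ℝ) ^ 2 := by
        simp only [sum_add_distrib, mul_sum, sum_const, Nat.card_Icc, nsmul_eq_mul, mul_one]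
        push_cast
        simp
        ring
    _ ≤ Y * (1 + Real.log V) + Y := by
        have h1 := Msq_quad V hV
        have h2 : (V : ℝ) ^ 2 ≤ Y := by exact_mod_cast hY
        have := mul_le_mul_of_nonneg_left h1 hY0
        linarith
    _ = Y * (Real.log V + 2) := by ring

/-- reorganising a double sum -/
theorem Msq_sum_divisors (Y : ℕ) (f : ℕ → ℕ → ℝ) :
    ∑ n ∈ Icc 1 Y, ∑ d ∈ n.divisors, f d (n / d) =
      ∑ d ∈ Icc 1 Y, ∑ m ∈ Icc 1 (Y / d), f d m := by
  rw [Finset.sum_sigma', Finset.sum_sigma']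
  refine Finset.sum_nbij' (fun x => ⟨x.2, x.1 / x.2⟩) (fun x => ⟨x.1 * x.2, x.1⟩) ?_ ?_ ?_ ?_ ?_
  · rintro ⟨n, d⟩ hx
    simp only [mem_sigma, mem_Icc, Nat.mem_divisors] at hx ⊢
    obtain ⟨⟨h1, h2⟩, h3, -⟩ := hx
    have hd : 0 < d := Nat.pos_of_dvd_of_pos h3 h1
    exact ⟨⟨hd, (Nat.le_of_dvd h1 h3).trans h2⟩, Nat.div_pos (Nat.le_of_dvd h1 h3) hd,
      Nat.div_le_div_right h2⟩
  · rintro ⟨d, m⟩ hx
    simp only [mem_sigma, mem_Icc, Nat.mem_divisors] at hx ⊢
    obtain ⟨⟨h1, h2⟩, h3, h4⟩ := hx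
    have h5 : d * m ≤ Y := by
      calc d * m ≤ d * (Y / d) := Nat.mul_le_mul_left _ h4
        _ ≤ Y := Nat.mul_div_le _ _
    have h6 : 0 < d * m := Nat.mul_pos h1 h3
    exact ⟨⟨h6, h5⟩, dvd_mul_right _ _, h6.ne'⟩
  · rintro ⟨n, d⟩ hx
    simp only [mem_sigma, mem_Icc, Nat.mem_divisors] at hx ⊢
    rw [Nat.mul_div_cancel' hx.2.1]
  · rintro ⟨d, m⟩ hx
    simp only [mem_sigma, mem_Icc] at hx ⊢
    rw [Nat.mul_div_cancel_left m hx.1.1]
  · rintro ⟨n, d⟩ _
    rfl

theorem Msq_tau_sum (x : ℕ) :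
    ∑ m ∈ Icc 1 x, (m.divisors.card : ℝ) ≤ x * (1 + Real.log x) := by
  have h1 : ∑ m ∈ Icc 1 x, (m.divisors.card : ℝ) = ∑ d ∈ Icc 1 x, ((x / d : ℕ) : ℝ) := by
    have := Msq_sum_divisors x (fun _ _ => (1 : ℝ))
    simpa using this
  rw [h1]
  calc ∑ d ∈ Icc 1 x, ((x / d : ℕ) : ℝ) ≤ ∑ d ∈ Icc 1 x, (x : ℝ) * (1 / d) := by
        apply sum_le_sum
        intro d _
        have : ((x / d : ℕ) : ℝ) ≤ (x : ℝ) / d := Nat.cast_div_le
        rwa [mul_one_div]
    _ = x * ∑ d ∈ Icc 1 x, (1 : ℝ) / d := by rw [mul_sum]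
    _ ≤ x * (1 + Real.log x) :=
        mul_le_mul_of_nonneg_left (Msq_harmonic x) (Nat.cast_nonneg _)

theorem Msq_tau_sq (Y : ℕ) (hY : 1 ≤ Y) :
    ∑ n ∈ Icc 1 Y, (n.divisors.card : ℝ) ^ 2 ≤ Y * (Real.log Y + 1) ^ 3 := by
  have hlog : 0 ≤ Real.log Y := Real.log_natCast_nonneg Y
  have hY0 : (0 : ℝ) < Y := by exact_mod_cast hY
  calc ∑ n ∈ Icc 1 Y, (n.divisors.card : ℝ) ^ 2
      ≤ ∑ n ∈ Icc 1 Y, ∑ d ∈ n.divisors, (d.divisors.card : ℝ) * ((n / d).divisors.card : ℝ) := by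
        apply sum_le_sum
        intro n hn
        have h1 : (n.divisors.card : ℝ) ^ 2 = ∑ d ∈ n.divisors, (n.divisors.card : ℝ) := by
          rw [sum_const, nsmul_eq_mul, pow_two]
        rw [h1]
        apply sum_le_sum
        intro d hd
        rw [Nat.mem_divisors] at hd
        have h2 : n.divisors.card ≤ d.divisors.card * (n / d).divisors.card := by
          conv_lhs => rw [← Nat.mul_div_cancel' hd.1]
          rw [Nat.divisors_mul]
          exact card_mul_le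
        exact_mod_cast h2
    _ = ∑ d ∈ Icc 1 Y, ∑ m ∈ Icc 1 (Y / d), (d.divisors.card : ℝ) * (m.divisors.card : ℝ) :=
        Msq_sum_divisors Y (fun d m => (d.divisors.card : ℝ) * (m.divisors.card : ℝ))
    _ ≤ ∑ d ∈ Icc 1 Y, (d.divisors.card : ℝ) * ((Y : ℝ) / d * (1 + Real.log Y)) := by
        apply sum_le_sum
        intro d hd
        rw [mem_Icc] at hd
        rw [← mul_sum]
        apply mul_le_mul_of_nonneg_left _ (Nat.cast_nonneg _)
        have hd0 : (0 : ℝ) < d := by exact_mod_cast hd.1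
        have h1 := Msq_tau_sum (Y / d)
        have h2 : ((Y / d : ℕ) : ℝ) ≤ (Y : ℝ) / d := Nat.cast_div_le
        have h3 : 1 ≤ Y / d := Nat.div_pos hd.2 hd.1
        have h4 : Real.log ((Y / d : ℕ) : ℝ) ≤ Real.log Y := by
          apply Real.log_le_log
          · exact_mod_cast h3
          · exact_mod_cast Nat.div_le_self Y d
        refine h1.trans ?_
        apply mul_le_mul h2 (by linarith) _ (by positivity)
        have : 0 ≤ Real.log ((Y / d : ℕ) : ℝ) := Real.log_natCast_nonneg _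
        linarith
    _ = Y * (1 + Real.log Y) * ∑ d ∈ Icc 1 Y, (d.divisors.card : ℝ) * (1 / d) := by
        rw [mul_sum]
        apply sum_congr rfl
        intro d _
        ring
    _ ≤ Y * (1 + Real.log Y) * (1 + Real.log Y) ^ 2 := by
        apply mul_le_mul_of_nonneg_left _ (by positivity)
        have h1 : ∑ d ∈ Icc 1 Y, (d.divisors.card : ℝ) * (1 / d) =
            ∑ a ∈ Icc 1 Y, ∑ b ∈ Icc 1 (Y / a), (1 : ℝ) / a * (1 / b) := by
          rw [← Msq_sum_divisors Y (fun a b => (1 : ℝ) / a * (1 / b))]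
          apply sum_congr rfl
          intro n hn
          rw [mem_Icc] at hn
          rw [← nsmul_eq_mul, ← sum_const]
          apply sum_congr rfl
          intro d hd
          rw [Nat.mem_divisors] at hd
          have hd0 : d ≠ 0 := fun h => by
            rw [h] at hd
            exact hd.2 (Nat.eq_zero_of_zero_dvd hd.1)
          have h5 : (d : ℝ) * ((n / d : ℕ) : ℝ) = n := by
            exact_mod_cast Nat.mul_div_cancel' hd.1
          rw [div_mul_div_comm, one_mul, h5]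
        rw [h1]
        calc ∑ a ∈ Icc 1 Y, ∑ b ∈ Icc 1 (Y / a), (1 : ℝ) / a * (1 / b)
            ≤ ∑ a ∈ Icc 1 Y, ∑ b ∈ Icc 1 Y, (1 : ℝ) / a * (1 / b) := by
              apply sum_le_sum
              intro a _
              apply sum_le_sum_of_subset_of_nonneg
              · exact Icc_subset_Icc_right (Nat.div_le_self _ _)
              · intro b _ _
                positivity
          _ = (∑ a ∈ Icc 1 Y, (1 : ℝ) / a) ^ 2 := by
              rw [pow_two, sum_mul_sum]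
          _ ≤ (1 + Real.log Y) ^ 2 := by
              apply pow_le_pow_left₀ _ (Msq_harmonic Y)
              apply sum_nonneg
              intro a _
              positivity
    _ = Y * (Real.log Y + 1) ^ 3 := by ring

theorem cV_sq_all (V Y : ℕ) (hV : 1 ≤ V) (hY : 1 ≤ Y) :
    ∑ n ∈ Ioc V Y, (cV V n) ^ 2 ≤ Y * (Real.log Y + 1) ^ 3 := by
  refine le_trans ?_ (Msq_tau_sq Y hY)
  calc ∑ n ∈ Ioc V Y, (cV V n) ^ 2 ≤ ∑ n ∈ Ioc V Y, (n.divisors.card : ℝ) ^ 2 := by
        apply sum_le_sum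
        intro n _
        rw [← sq_abs]
        apply pow_le_pow_left₀ (abs_nonneg _)
        unfold cV
        refine (abs_sum_le_sum_abs _ _).trans ?_
        calc ∑ d ∈ n.divisors.filter (fun d => V < d), |(moebius d : ℝ)|
            ≤ ∑ d ∈ n.divisors.filter (fun d => V < d), (1 : ℝ) :=
              sum_le_sum fun d _ => Msq_abs_moebius d
          _ ≤ n.divisors.card := by
              rw [sum_const, nsmul_eq_mul, mul_one]
              exact_mod_cast card_filter_le _ _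
    _ ≤ ∑ n ∈ Icc 1 Y, (n.divisors.card : ℝ) ^ 2 := by
        apply sum_le_sum_of_subset_of_nonneg
        · intro n hn
          rw [mem_Ioc] at hn
          rw [mem_Icc]
          omega
        · intro n _ _
          positivity

theorem Lam_sq (M : ℕ) (hM : 1 ≤ M) :
    ∑ m ∈ Ioc M (2 * M), (ArithmeticFunction.vonMangoldt m) ^ 2 ≤ 2.2 * M * Real.log (2 * M) := by
  have hM0 : (0 : ℝ) < M := by exact_mod_cast hM
  have hlog : 0 ≤ Real.log (2 * M) := Real.log_nonneg (by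
    have : (1 : ℝ) ≤ M := by exact_mod_cast hM
    linarith)
  have hpsi : ∑ m ∈ Ioc M (2 * M), ArithmeticFunction.vonMangoldt m ≤ Real.log 3 * (2 * M) := by
    have h1 := Pool.Agent.H91.Gold.psi_le_log_three (2 * M)
    rw [Chebyshev.psi] at h1
    rw [Nat.floor_natCast] at h1
    push_cast at h1
    refine le_trans ?_ h1
    apply sum_le_sum_of_subset_of_nonneg
    · intro m hm
      rw [mem_Ioc] at hm ⊢
      omega
    · intro m _ _
      exact ArithmeticFunction.vonMangoldt_nonneg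
  have hl3 : Real.log 3 ≤ 1.1 := by
    have h := Pool.Agent.H91.Gold.log_three_bounds.2
    have := Real.log_two_lt_d9
    linarith
  calc ∑ m ∈ Ioc M (2 * M), (ArithmeticFunction.vonMangoldt m) ^ 2
      ≤ ∑ m ∈ Ioc M (2 * M), Real.log (2 * M) * ArithmeticFunction.vonMangoldt m := by
        apply sum_le_sum
        intro m hm
        rw [mem_Ioc] at hm
        rw [pow_two]
        apply mul_le_mul_of_nonneg_right _ ArithmeticFunction.vonMangoldt_nonneg
        refine ArithmeticFunction.vonMangoldt_le_log.trans ?_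
        apply Real.log_le_log
        · have : 0 < m := by omega
          exact_mod_cast this
        · exact_mod_cast hm.2
    _ = Real.log (2 * M) * ∑ m ∈ Ioc M (2 * M), ArithmeticFunction.vonMangoldt m := by
        rw [mul_sum]
    _ ≤ Real.log (2 * M) * (Real.log 3 * (2 * M)) := mul_le_mul_of_nonneg_left hpsi hlog
    _ ≤ 2.2 * M * Real.log (2 * M) := by
        have h2 : Real.log 3 * (2 * M) ≤ 1.1 * (2 * M) :=
          mul_le_mul_of_nonneg_right hl3 (by positivity)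
        have := mul_le_mul_of_nonneg_left h2 hlog
        linarith

end Pool.Agent.H91.PK
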